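import Pool.Agent.H501.G.R_pool_sql_team_seeded_3997aac3.Q237.SX.Ram2

/-!
# Modular forms of level one with `p`-integral coefficients; job STRUCT
-/

set_option autoImplicit false

noncomputable section

open UpperHalfPlane hiding I
open ModularForm MatrixGroups Filter Topology Function Real Complex EisensteinSeries
open scoped Manifold
open PowerSeries (coeff)

namespace Pool.Agent.Q237.SX

open Pool.Agent.Q279.SC

variable {p : ℕ} [hp : Fact p.Prime]

/-- the series `A` over `ℂ` and `B` over `ℤ_p` come from the same series over `ℚ` -/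
def RR (p : ℕ) [Fact p.Prime] (A : PowerSeries ℂ) (B : PowerSeries ℤ_[p]) : Prop :=
  ∃ c : PowerSeries ℚ, PowerSeries.map (algebraMap ℚ ℂ) c = A ∧
    PowerSeries.map (algebraMap ℚ ℚ_[p]) c = PowerSeries.map PadicInt.Coe.ringHom B

lemma RR.add {A A' : PowerSeries ℂ} {B B' : PowerSeries ℤ_[p]} (h : RR p A B) (h' : RR p A' B') :
    RR p (A + A') (B + B') := by
  obtain ⟨c, h1, h2⟩ := h
  obtain ⟨c', h1', h2'⟩ := h'
  exact ⟨c + c', by rw [map_add, h1, h1'], by rw [map_add, map_add, h2, h2']⟩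

lemma RR.sub {A A' : PowerSeries ℂ} {B B' : PowerSeries ℤ_[p]} (h : RR p A B) (h' : RR p A' B') :
    RR p (A - A') (B - B') := by
  obtain ⟨c, h1, h2⟩ := h
  obtain ⟨c', h1', h2'⟩ := h'
  exact ⟨c - c', by rw [map_sub, h1, h1'], by rw [map_sub, map_sub, h2, h2']⟩

lemma RR.mul {A A' : PowerSeries ℂ} {B B' : PowerSeries ℤ_[p]} (h : RR p A B) (h' : RR p A' B') :
    RR p (A * A') (B * B') := by
  obtain ⟨c, h1, h2⟩ := h
  obtain ⟨c', h1', h2'⟩ := h'
  exact ⟨c * c', by rw [map_mul, h1, h1'], by rw [map_mul, map_mul, h2, h2']⟩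

lemma RR.int (f : PowerSeries ℤ) : RR p (PowerSeries.map (Int.castRingHom ℂ) f)
    (PowerSeries.map (Int.castRingHom ℤ_[p]) f) := by
  refine ⟨PowerSeries.map (Int.castRingHom ℚ) f, ?_, ?_⟩
  · ext m
    rw [PowerSeries.coeff_map, PowerSeries.coeff_map, PowerSeries.coeff_map]
    simp
  · ext m
    rw [PowerSeries.coeff_map, PowerSeries.coeff_map, PowerSeries.coeff_map,
      PowerSeries.coeff_map]
    simp

lemma RR.const {c : ℚ} {b : ℤ_[p]} (h : (c : ℚ_[p]) = (b : ℚ_[p])) :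
    RR p (PowerSeries.C (c : ℂ)) (PowerSeries.C b) := by
  refine ⟨PowerSeries.C c, ?_, ?_⟩
  · rw [PowerSeries.map_C]
    rfl
  · rw [PowerSeries.map_C, PowerSeries.map_C]
    congr 1

lemma RR.coeff {A : PowerSeries ℂ} {B : PowerSeries ℤ_[p]} (h : RR p A B) (n : ℕ) :
    ∃ c : ℚ, PowerSeries.coeff n A = (c : ℂ) ∧
      (c : ℚ_[p]) = ((PowerSeries.coeff n B : ℤ_[p]) : ℚ_[p]) := by
  obtain ⟨c, h1, h2⟩ := h
  refine ⟨PowerSeries.coeff n c, ?_, ?_⟩
  · rw [← h1, PowerSeries.coeff_map]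
    rfl
  · have h3 := congrArg (PowerSeries.coeff n) h2
    rw [PowerSeries.coeff_map, PowerSeries.coeff_map] at h3
    exact h3

lemma RR.eq_zero {B : PowerSeries ℤ_[p]} (h : RR p 0 B) : B = 0 := by
  ext n
  obtain ⟨c, h1, h2⟩ := h.coeff n
  rw [map_zero] at h1 ⊢
  have h3 : c = 0 := by exact_mod_cast h1.symm
  rw [h3, Rat.cast_zero] at h2
  exact Subtype.ext h2.symm

lemma RR.shift {A : PowerSeries ℂ} {B : PowerSeries ℤ_[p]}
    (h : RR p (PowerSeries.X * A) (PowerSeries.X * B)) : RR p A B := by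
  obtain ⟨c, h1, h2⟩ := h
  refine ⟨PowerSeries.mk fun n => PowerSeries.coeff (n + 1) c, ?_, ?_⟩
  · ext n
    have h3 := congrArg (PowerSeries.coeff (n + 1)) h1
    rw [PowerSeries.coeff_map, PowerSeries.coeff_succ_X_mul] at h3
    rw [PowerSeries.coeff_map, PowerSeries.coeff_mk, h3]
  · ext n
    have h3 := congrArg (PowerSeries.coeff (n + 1)) h2
    rw [PowerSeries.coeff_map, PowerSeries.coeff_map, PowerSeries.coeff_succ_X_mul] at h3
    rw [PowerSeries.coeff_map, PowerSeries.coeff_map, PowerSeries.coeff_mk, h3]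

lemma qD_eq (R : Type) [CommRing R] : 1728 * qD R = q4 R ^ 3 - q6 R ^ 2 := by
  have h := congrArg (PowerSeries.map (Int.castRingHom R)) zD_eq
  rw [map_mul, map_sub, map_pow, map_pow, map_ofNat] at h
  exact h

lemma qD_X (R : Type) [CommRing R] : qD R = PowerSeries.X * qd R := by
  have h := congrArg (PowerSeries.map (Int.castRingHom R)) zD_X
  rw [map_mul, PowerSeries.map_X] at h
  exact h

lemma C_1728 : (1728 : PowerSeries ℂ) * PowerSeries.C 1728⁻¹ = 1 := by
  have : (1728 : PowerSeries ℂ) = PowerSeries.C (1728 : ℂ) := (map_ofNat PowerSeries.C 1728).symm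
  rw [this, ← map_mul, mul_inv_cancel₀ (by norm_num), map_one]

/-- the `q`-series of `Δ` -/
theorem hqD : HQ ModularForm.discriminant (qD ℂ) := by
  have h1 : HQ (fun τ => (1728⁻¹ : ℂ) * (E₄ τ ^ 3 - E₆ τ ^ 2))
      (PowerSeries.C 1728⁻¹ * (q4 ℂ ^ 3 - q6 ℂ ^ 2)) := ((hq4.pow 3).sub (hq6.pow 2)).smul _
  have h2 : PowerSeries.C 1728⁻¹ * (q4 ℂ ^ 3 - q6 ℂ ^ 2) = qD ℂ := by
    rw [← qD_eq]
    linear_combination qD ℂ * C_1728
  rw [h2] at h1
  refine h1.congr fun τ => ?_
  rw [discriminant_eq_E₄_cube_sub_E₆_sq]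
  ring

lemma zd_unit : ∃ u : PowerSeries ℤ, zd * u = 1 := by
  have h : IsUnit zd := by
    rw [PowerSeries.isUnit_iff_constantCoeff, zd0]
    exact isUnit_one
  exact h.exists_right_inv

lemma unit_1728 (h5 : 5 ≤ p) : ∃ i : ℤ_[p], 1728 * i = 1 := by
  have h1 : IsUnit ((1728 : ℕ) : ℤ_[p]) := by
    rw [PadicInt.isUnit_iff, PadicInt.norm_natCast_eq_one_iff]
    have h2 : (1728 : ℕ) = 2 ^ 6 * 3 ^ 3 := by norm_num
    rw [h2]
    refine Nat.Coprime.mul_right (Nat.Coprime.pow_right _ ?_) (Nat.Coprime.pow_right _ ?_)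
    · exact (Nat.coprime_primes hp.out Nat.prime_two).2 (by omega)
    · exact (Nat.coprime_primes hp.out Nat.prime_three).2 (by omega)
  obtain ⟨i, hi⟩ := h1.exists_right_inv
  exact ⟨i, by exact_mod_cast hi⟩

lemma ev_C (R : Type) [CommRing R] (c : R) : ev R (MvPolynomial.C c) = PowerSeries.C c := by
  unfold ev
  rw [MvPolynomial.coe_eval₂Hom, MvPolynomial.eval₂_C]

lemma ev_0 (R : Type) [CommRing R] : ev R (MvPolynomial.X 0) = q4 R := by
  unfold ev
  rw [MvPolynomial.coe_eval₂Hom, MvPolynomial.eval₂_X]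
  rfl

lemma ev_1 (R : Type) [CommRing R] : ev R (MvPolynomial.X 1) = q6 R := by
  unfold ev
  rw [MvPolynomial.coe_eval₂Hom, MvPolynomial.eval₂_X]
  rfl

lemma iso_X0 (R : Type) [CommRing R] : Iso (MvPolynomial.X 0 : P2 R) 2 :=
  MvPolynomial.isWeightedHomogeneous_X R _ 0

lemma iso_X1 (R : Type) [CommRing R] : Iso (MvPolynomial.X 1 : P2 R) 3 :=
  MvPolynomial.isWeightedHomogeneous_X R _ 1

lemma iso_mul {R : Type} [CommRing R] {F G : P2 R} {v w : ℕ} (hF : Iso F v) (hG : Iso G w) :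
    Iso (F * G) (v + w) := MvPolynomial.IsWeightedHomogeneous.mul hF hG

lemma iso_pow {R : Type} [CommRing R] {F : P2 R} {v : ℕ} (hF : Iso F v) (n : ℕ) :
    Iso (F ^ n) (n * v) := MvPolynomial.IsWeightedHomogeneous.pow hF n

lemma iso_C {R : Type} [CommRing R] {F : P2 R} {v : ℕ} (hF : Iso F v) (c : R) :
    Iso (MvPolynomial.C c * F) v := MvPolynomial.IsWeightedHomogeneous.C_mul hF c

lemma iso_add {R : Type} [CommRing R] {F G : P2 R} {v : ℕ} (hF : Iso F v) (hG : Iso G v) :
    Iso (F + G) v := MvPolynomial.IsWeightedHomogeneous.add hF hG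

lemma iso_sub {R : Type} [CommRing R] {F G : P2 R} {v : ℕ} (hF : Iso F v) (hG : Iso G v) :
    Iso (F - G) v := MvPolynomial.IsWeightedHomogeneous.sub hF hG

theorem struct_aux (h5 : 5 ≤ p) (w : ℕ) : ∀ (F : ModularForm 𝒮ℒ ((2 * w : ℕ) : ℤ))
    (A : PowerSeries ℂ) (B : PowerSeries ℤ_[p]), HQ F A → RR p A B →
    ∃ N : P2 ℤ_[p], Iso N w ∧ ev ℤ_[p] N = B := by
  induction w using Nat.strong_induction_on with
  | _ w ih =>
    intro F A B hFA hAB
    by_cases hw1 : w = 1
    · subst hw1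
      have h1 : ModularForm.mcast (b := 2) (by norm_num) F = 0 :=
        rank_zero_iff_forall_zero.mp ModularForm.levelOne_weight_two_rank_zero _
      have h2 : ∀ τ, F τ = 0 := fun τ => by
        have h3 := congrArg (fun f : ModularForm 𝒮ℒ 2 => f τ) h1
        exact h3
      have h3 : A = 0 := hFA.unique (HQ.zero.congr fun τ => (h2 τ).symm)
      rw [h3] at hAB
      refine ⟨0, MvPolynomial.isWeightedHomogeneous_zero _ _ _, ?_⟩
      rw [map_zero, hAB.eq_zero]
    · obtain ⟨a, b, hab⟩ : ∃ a b : ℕ, a * 2 + b * 3 = w := by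
        rcases Nat.even_or_odd' w with ⟨k, hk | hk⟩
        · exact ⟨k, 0, by omega⟩
        · exact ⟨k - 1, 1, by omega⟩
      have hwt : (a : ℤ) * 4 + (b : ℤ) * 6 = ((2 * w : ℕ) : ℤ) := by
        rw [← hab]
        push_cast
        ring
      set M : ModularForm 𝒮ℒ ((2 * w : ℕ) : ℤ) := ModularForm.mcast hwt
        ((E₄.pow a).mul (E₆.pow b)) with hM
      have hMq : HQ M (q4 ℂ ^ a * q6 ℂ ^ b) := by
        refine ((hq4.pow a).mul (hq6.pow b)).congr fun τ => ?_
        change _ = (⇑(E₄.pow a) * ⇑(E₆.pow b)) τ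
        rw [ModularForm.coe_pow, ModularForm.coe_pow]
        rfl
      obtain ⟨c₀, hc1, hc2⟩ := hAB.coeff 0
      set b₀ := PowerSeries.coeff 0 B with hb₀
      have hF' : HQ (⇑(F - (c₀ : ℂ) • M)) (A - PowerSeries.C (c₀ : ℂ) * (q4 ℂ ^ a * q6 ℂ ^ b)) :=
        (hFA.sub (hMq.smul _)).congr fun τ => rfl
      have hR1 : RR p (q4 ℂ ^ a * q6 ℂ ^ b) (q4 ℤ_[p] ^ a * q6 ℤ_[p] ^ b) := by
        have h := RR.int (p := p) (z4 ^ a * z6 ^ b)
        rw [map_mul, map_mul, map_pow, map_pow, map_pow, map_pow] at h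
        exact h
      have hR : RR p (A - PowerSeries.C (c₀ : ℂ) * (q4 ℂ ^ a * q6 ℂ ^ b))
          (B - PowerSeries.C b₀ * (q4 ℤ_[p] ^ a * q6 ℤ_[p] ^ b)) :=
        hAB.sub ((RR.const hc2).mul hR1)
      have h0 : PowerSeries.coeff 0 (A - PowerSeries.C (c₀ : ℂ) * (q4 ℂ ^ a * q6 ℂ ^ b)) = 0 := by
        have h1 : PowerSeries.coeff 0 (q4 ℂ) = 1 := by rw [coeff_q4, if_pos rfl]
        have h2 : PowerSeries.coeff 0 (q6 ℂ) = 1 := by rw [coeff_q6, if_pos rfl]
        rw [PowerSeries.coeff_zero_eq_constantCoeff_apply] at h1 h2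
        rw [map_sub, PowerSeries.coeff_C_mul, hc1, PowerSeries.coeff_zero_eq_constantCoeff_apply,
          map_mul, map_pow, map_pow, h1, h2]
        ring
      have hisoM : Iso (MvPolynomial.C b₀ * (MvPolynomial.X 0 ^ a * MvPolynomial.X 1 ^ b) :
          P2 ℤ_[p]) w := by
        rw [← hab]
        exact iso_C (iso_mul (iso_pow (iso_X0 _) a) (iso_pow (iso_X1 _) b)) _
      have hevM : ev ℤ_[p] (MvPolynomial.C b₀ * (MvPolynomial.X 0 ^ a * MvPolynomial.X 1 ^ b)) =
          PowerSeries.C b₀ * (q4 ℤ_[p] ^ a * q6 ℤ_[p] ^ b) := by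
        rw [map_mul, map_mul, map_pow, map_pow, ev_C, ev_0, ev_1]
      by_cases hw6 : w < 6
      · have h1 := small_zero (by omega) _ hF' h0
        rw [h1] at hR
        refine ⟨_, hisoM, ?_⟩
        rw [hevM]
        exact (sub_eq_zero.1 hR.eq_zero).symm
      · -- division by `Δ`
        set F' := F - (c₀ : ℂ) • M with hF'def
        set A' := A - PowerSeries.C (c₀ : ℂ) * (q4 ℂ ^ a * q6 ℂ ^ b) with hA'
        set B' := B - PowerSeries.C b₀ * (q4 ℤ_[p] ^ a * q6 ℤ_[p] ^ b) with hB'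
        have hqF : qExpansion 1 F' = A' := (HQ.of_mf F').unique hF'
        have hcusp : (qExpansion 1 F').coeff 0 = 0 := by
          rw [hqF]
          exact h0
        set G₀ := CuspForm.discriminantEquiv (toCuspForm F' hcusp) with hG₀
        have hkk : ((2 * w : ℕ) : ℤ) - 12 = ((2 * (w - 6) : ℕ) : ℤ) := by omega
        set G : ModularForm 𝒮ℒ ((2 * (w - 6) : ℕ) : ℤ) := ModularForm.mcast hkk G₀ with hG
        have hFG : ∀ τ, ModularForm.discriminant τ * G τ = F' τ := fun τ =>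
          discriminant_mul_discriminantEquiv_apply (toCuspForm F' hcusp) τ
        set A'' := qExpansion 1 G with hA''
        have hGq : HQ G A'' := HQ.of_mf G
        have hprod : A' = qD ℂ * A'' := hF'.unique ((hqD.mul hGq).congr hFG)
        obtain ⟨u, hu⟩ := zd_unit
        have huC : qd ℂ * PowerSeries.map (Int.castRingHom ℂ) u = 1 := by
          unfold qd
          rw [← map_mul, hu, map_one]
        have huP : qd ℤ_[p] * PowerSeries.map (Int.castRingHom ℤ_[p]) u = 1 := by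
          unfold qd
          rw [← map_mul, hu, map_one]
        have hB0 : PowerSeries.constantCoeff B' = 0 := by
          obtain ⟨c, h1, h2⟩ := hR.coeff 0
          rw [h0] at h1
          have h3 : c = 0 := by exact_mod_cast h1.symm
          rw [h3, Rat.cast_zero] at h2
          rw [← PowerSeries.coeff_zero_eq_constantCoeff_apply]
          exact Subtype.ext h2.symm
        obtain ⟨B₁, hB₁⟩ := PowerSeries.X_dvd_iff.2 hB0
        set B'' := PowerSeries.map (Int.castRingHom ℤ_[p]) u * B₁ with hB''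
        have hRR : RR p A'' B'' := by
          apply RR.shift
          have h1 : PowerSeries.X * A'' = PowerSeries.map (Int.castRingHom ℂ) u * A' := by
            rw [hprod, qD_X]
            linear_combination (-(PowerSeries.X * A'')) * huC
          have h2 : PowerSeries.X * B'' = PowerSeries.map (Int.castRingHom ℤ_[p]) u * B' := by
            rw [hB'', hB₁]
            ring
          rw [h1, h2]
          exact (RR.int u).mul hR
        obtain ⟨N', hN1, hN2⟩ := ih (w - 6) (by omega) G A'' B'' hGq hRR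
        obtain ⟨i, hi⟩ := unit_1728 (p := p) h5
        refine ⟨MvPolynomial.C b₀ * (MvPolynomial.X 0 ^ a * MvPolynomial.X 1 ^ b) +
          MvPolynomial.C i * ((MvPolynomial.X 0 ^ 3 - MvPolynomial.X 1 ^ 2) * N'), ?_, ?_⟩
        · refine iso_add hisoM (iso_C ?_ i)
          have h1 : Iso (MvPolynomial.X 0 ^ 3 - MvPolynomial.X 1 ^ 2 : P2 ℤ_[p]) 6 :=
            iso_sub (iso_pow (iso_X0 _) 3) (iso_pow (iso_X1 _) 2)
          have h2 := iso_mul h1 hN1
          have h3 : 6 + (w - 6) = w := by omega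
          rw [h3] at h2
          exact h2
        · have h1 : PowerSeries.C i * 1728 = (1 : PowerSeries ℤ_[p]) := by
            have h2 : (1728 : PowerSeries ℤ_[p]) = PowerSeries.C (1728 : ℤ_[p]) :=
              (map_ofNat PowerSeries.C 1728).symm
            rw [h2, ← map_mul, mul_comm i, hi, map_one]
          rw [map_add, hevM, map_mul, map_mul, map_sub, map_pow, map_pow, ev_C, ev_0, ev_1, hN2,
            ← qD_eq]
          have h3 : B' = qD ℤ_[p] * B'' := by
            rw [hB'', hB₁, qD_X]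
            linear_combination (-(PowerSeries.X * B₁)) * huP
          have h4 : B = B' + PowerSeries.C b₀ * (q4 ℤ_[p] ^ a * q6 ℤ_[p] ^ b) := by
            rw [hB']
            ring
          rw [h4, h3]
          linear_combination (qD ℤ_[p] * B'') * h1

/-- Job STRUCT -/
theorem struct : Struct := by
  intro p _ h5 w F c hc hcp
  have hF := HQ.of_mf F
  set B : PowerSeries ℤ_[p] := PowerSeries.mk fun n => (⟨((c n : ℚ) : ℚ_[p]), hcp n⟩ : ℤ_[p])
  have hRR : RR p (qExpansion 1 F) B := by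
    refine ⟨PowerSeries.mk c, ?_, ?_⟩
    · ext n
      rw [PowerSeries.coeff_map, PowerSeries.coeff_mk, hc n]
      rfl
    · ext n
      rw [PowerSeries.coeff_map, PowerSeries.coeff_map, PowerSeries.coeff_mk,
        PowerSeries.coeff_mk]
      rfl
  obtain ⟨N, h1, h2⟩ := struct_aux h5 w F _ B hF hRR
  refine ⟨N, h1, fun n => ?_⟩
  rw [h2, PowerSeries.coeff_mk]

theorem jStruct : JStruct := fun _ => struct

end Pool.Agent.Q237.SX
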